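import Pool.Agent.Lib.MP_498a73_pr.Final

set_option autoImplicit false

namespace Pool.Agent.Results.MP_498a73_pr.PoissonLimit

open Filter Topology Pool.Agent.Lib.MP_498a73_pr

/-- Along every sequence of parameters `1 ≤ k_j ≤ n_j` and finite fields `F_j` with `q_j` elements
such that `n_j → ∞`, `q_j → ∞` and `binom(n_j, k_j) / q_j → lam ∈ (0, ∞)`, the probability that a
uniformly random `k_j`-dimensional subspace of `F_j ^ n_j` is MDS tends to `exp (-lam)`. -/
theorem result (n k : ℕ → ℕ) (F : ℕ → Type) [∀ j, Field (F j)] [∀ j, Fintype (F j)]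
    (lam : ℝ) (hlam : 0 < lam) (hk1 : ∀ j, 1 ≤ k j) (hkn : ∀ j, k j ≤ n j)
    (hn : Tendsto n atTop atTop)
    (hq : Tendsto (fun j => Fintype.card (F j)) atTop atTop)
    (hN : Tendsto (fun j => (Nat.choose (n j) (k j) : ℝ) / (Fintype.card (F j) : ℝ)) atTop
      (𝓝 lam)) :
    Tendsto (fun j => mdsProb (F j) (n j) (k j)) atTop (𝓝 (Real.exp (-lam))) :=
  main n k F lam hlam hk1 hkn hn hq hN

end Pool.Agent.Results.MP_498a73_pr.PoissonLimit
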